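import Mathlib
import Pool.Agent.V1135.Semi

/-!
# A pseudocentral Baer group that is not a Fitting group

Let `Λ` be the set of rationals in `(0, 1)`. The transvections `tau l m`, `l < m`, act on the set
`Ω` of finite subsets of `Λ` (the vectors of the natural module of the McLain group over the field
with two elements) and generate a McLain group `B`. Let `P` be the permutation module of `Ω` over
the field with two elements. The group is `[P, B] ⋊ B`.
-/

set_option autoImplicit false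
set_option linter.unusedSectionVars false

namespace Pool.Agent.Results.MP_a7b7fa_al.BaerNotFitting

noncomputable section

open Pool.Agent.V1135
open scoped commutatorElement

/-! ### Generalities -/

section general

variable {G : Type*} [Group G]

theorem chain (H : Subgroup G) (C : ℕ → Subgroup G) (h0 : (H ⊔ C 0).IsSubnormal)
    (hle : ∀ n, C (n + 1) ≤ C n) (hn : ∀ n, ∀ x ∈ C n, ∀ y ∈ C (n + 1), x * y * x⁻¹ ∈ C (n + 1))
    (hc : ∀ n, ∀ x ∈ C n, ∀ h ∈ H, ⁅x, h⁆ ∈ C (n + 1)) : ∀ n, (H ⊔ C n).IsSubnormal := by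
  intro n
  induction n with
  | zero => exact h0
  | succ n ih =>
    have hle' : H ⊔ C (n + 1) ≤ H ⊔ C n := sup_le_sup_left (hle n) H
    refine Subgroup.IsSubnormal.step _ _ hle' ih ?_
    rw [Subgroup.normal_subgroupOf_iff_le_normalizer hle']
    have key : ∀ x ∈ C n, ∀ y ∈ H ⊔ C (n + 1), x * y * x⁻¹ ∈ H ⊔ C (n + 1) := by
      intro x hx y hy
      have h1 : H ⊔ C (n + 1) ≤ (H ⊔ C (n + 1)).comap (MulAut.conj x).toMonoidHom := by
        refine sup_le ?_ ?_
        · intro h hh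
          show x * h * x⁻¹ ∈ H ⊔ C (n + 1)
          have e : x * h * x⁻¹ = ⁅x, h⁆ * h := by rw [commutatorElement_def]; group
          rw [e]
          exact mul_mem (Subgroup.mem_sup_right (hc n x hx h hh)) (Subgroup.mem_sup_left hh)
        · intro h hh
          exact Subgroup.mem_sup_right (hn n x hx h hh)
      exact h1 hy
    refine sup_le (le_sup_left.trans Subgroup.le_normalizer) ?_
    intro x hx
    rw [Subgroup.mem_normalizer_iff]
    intro y
    constructor
    · intro hy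
      exact key x hx y hy
    · intro hy
      have := key x⁻¹ (inv_mem hx) _ hy
      have e : x⁻¹ * (x * y * x⁻¹) * x⁻¹⁻¹ = y := by group
      rwa [e] at this

/-- Commutators of closures. -/
theorem comm_closure (S T : Set G) (N : Subgroup G)
    (hS : ∀ x ∈ Subgroup.closure S, ∀ y ∈ N, x * y * x⁻¹ ∈ N)
    (hT : ∀ x ∈ Subgroup.closure T, ∀ y ∈ N, x * y * x⁻¹ ∈ N)
    (h : ∀ s ∈ S, ∀ t ∈ T, ⁅s, t⁆ ∈ N) :
    ∀ x ∈ Subgroup.closure S, ∀ y ∈ Subgroup.closure T, ⁅x, y⁆ ∈ N := by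
  have h1 : ∀ s ∈ S, ∀ y ∈ Subgroup.closure T, ⁅s, y⁆ ∈ N := by
    intro s hs y hy
    refine Subgroup.closure_induction (p := fun y _ => ⁅s, y⁆ ∈ N) (fun t ht => h s hs t ht) ?_ ?_
      ?_ hy
    · simp
    · intro a b ha _ iha ihb
      have e : ⁅s, a * b⁆ = ⁅s, a⁆ * (a * ⁅s, b⁆ * a⁻¹) := by
        simp only [commutatorElement_def]; group
      rw [e]
      exact mul_mem iha (hT a ha _ ihb)
    · intro a ha iha
      have e : ⁅s, a⁻¹⁆ = a⁻¹ * ⁅s, a⁆⁻¹ * a⁻¹⁻¹ := by
        simp only [commutatorElement_def]; group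
      rw [e]
      exact hT _ (inv_mem ha) _ (inv_mem iha)
  intro x hx y hy
  refine Subgroup.closure_induction (p := fun x _ => ⁅x, y⁆ ∈ N) (fun s hs => h1 s hs y hy) ?_ ?_
    ?_ hx
  · simp
  · intro a b ha _ iha ihb
    have e : ⁅a * b, y⁆ = (a * ⁅b, y⁆ * a⁻¹) * ⁅a, y⁆ := by
      simp only [commutatorElement_def]; group
    rw [e]
    exact mul_mem (hS a ha _ ihb) iha
  · intro a ha iha
    have e : ⁅a⁻¹, y⁆ = a⁻¹ * ⁅a, y⁆⁻¹ * a⁻¹⁻¹ := by
      simp only [commutatorElement_def]; group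
    rw [e]
    exact hS _ (inv_mem ha) _ (inv_mem iha)

/-- Conjugation of a closure into a subgroup. -/
theorem conj_closure (S T : Set G) (hST : ∀ s ∈ S, ∀ t ∈ T, s * t * s⁻¹ ∈ Subgroup.closure T)
    (hST' : ∀ s ∈ S, ∀ t ∈ T, s⁻¹ * t * s ∈ Subgroup.closure T) :
    ∀ x ∈ Subgroup.closure S, ∀ y ∈ Subgroup.closure T, x * y * x⁻¹ ∈ Subgroup.closure T := by
  have h1 : ∀ u : G, (∀ t ∈ T, u * t * u⁻¹ ∈ Subgroup.closure T) →
      ∀ y ∈ Subgroup.closure T, u * y * u⁻¹ ∈ Subgroup.closure T := by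
    intro u hu y hy
    have h2 : Subgroup.closure T ≤ (Subgroup.closure T).comap (MulAut.conj u).toMonoidHom := by
      rw [Subgroup.closure_le]
      exact hu
    exact h2 hy
  intro x hx
  refine Subgroup.closure_induction_left
    (p := fun x _ => ∀ y ∈ Subgroup.closure T, x * y * x⁻¹ ∈ Subgroup.closure T) ?_ ?_ ?_ hx
  · intro y hy; simpa using hy
  · intro s hs x _ ih y hy
    have e : s * x * y * (s * x)⁻¹ = s * (x * y * x⁻¹) * s⁻¹ := by group
    rw [e]
    exact h1 s (hST s hs) _ (ih y hy)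
  · intro s hs x _ ih y hy
    have e : s⁻¹ * x * y * (s⁻¹ * x)⁻¹ = s⁻¹ * (x * y * x⁻¹) * s⁻¹⁻¹ := by group
    rw [e]
    exact h1 s⁻¹ (fun t ht => by simpa using hST' s hs t ht) _ (ih y hy)

end general

/-! ### The McLain group -/

/-- The index set: rationals in `(0, 1)`. -/
abbrev Lam := Set.Ioo (0 : ℚ) 1

/-- Vectors of the natural module: finite sets of indices. -/
abbrev Om := Finset Lam

/-- The transvection `e_m ↦ e_m + e_l` as a map on finite sets. -/
def tog (l m : Lam) (S : Om) : Om := if m ∈ S ∧ m ≠ l then symmDiff S {l} else S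

theorem tog_self (l : Lam) (S : Om) : tog l l S = S := by
  unfold tog
  simp

theorem tog_notMem (l m : Lam) (S : Om) (h : m ∉ S) : tog l m S = S := by
  unfold tog
  simp [h]

theorem mem_tog_ne (l m : Lam) (S : Om) (x : Lam) (hx : x ≠ l) :
    x ∈ tog l m S ↔ x ∈ S := by
  unfold tog
  split_ifs with h
  · rw [Finset.mem_symmDiff, Finset.mem_singleton]
    tauto
  · rfl

theorem mem_tog_self (l m : Lam) (S : Om) (hm : m ≠ l) :
    l ∈ tog l m S ↔ ¬ (l ∈ S ↔ m ∈ S) := by
  unfold tog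
  split_ifs with h
  · rw [Finset.mem_symmDiff, Finset.mem_singleton]
    tauto
  · tauto

theorem tog_tog (l m : Lam) (S : Om) : tog l m (tog l m S) = S := by
  rcases eq_or_ne m l with rfl | h
  · rw [tog_self, tog_self]
  ext x
  rcases eq_or_ne x l with rfl | hx
  · rw [mem_tog_self _ _ _ h, mem_tog_self _ _ _ h, mem_tog_ne _ _ _ _ h]
    tauto
  · rw [mem_tog_ne _ _ _ _ hx, mem_tog_ne _ _ _ _ hx]

/-- The transvection as a permutation. -/
def tau (l m : Lam) : Equiv.Perm Om := ⟨tog l m, tog l m, tog_tog l m, tog_tog l m⟩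

theorem tau_inv (l m : Lam) : (tau l m)⁻¹ = tau l m := rfl

theorem tau_apply (l m : Lam) (S : Om) : tau l m S = tog l m S := rfl

theorem tau_self (l : Lam) : tau l l = 1 := by
  ext1 S
  exact tog_self l S

theorem tau_mul_self (l m : Lam) : tau l m * tau l m = 1 := by
  ext1 S
  exact tog_tog l m S

theorem tau_comm (l m l' m' : Lam) (h1 : l ≠ m') (h2 : l' ≠ m) :
    tau l m * tau l' m' = tau l' m' * tau l m := by
  rcases eq_or_ne m l with rfl | h
  · rw [tau_self]; simp
  rcases eq_or_ne m' l' with rfl | h'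
  · rw [tau_self]; simp
  ext1 S
  show tog l m (tog l' m' S) = tog l' m' (tog l m S)
  have e1 := mem_tog_ne l m S m' h1.symm
  have e2 := mem_tog_ne l' m' S m h2.symm
  ext x
  rcases eq_or_ne x l with rfl | hx <;> rcases eq_or_ne x l' with hx' | hx'
  · subst hx'
    simp only [mem_tog_self _ _ _ h, mem_tog_self _ _ _ h', e1, e2]
    tauto
  · simp only [mem_tog_self _ _ _ h, mem_tog_ne _ _ _ _ hx', e2]
  · subst hx'
    simp only [mem_tog_self _ _ _ h', mem_tog_ne _ _ _ _ hx, e1]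
  · simp only [mem_tog_ne _ _ _ _ hx, mem_tog_ne _ _ _ _ hx']

theorem tau_rel (l n m : Lam) (h1 : l ≠ n) (h2 : n ≠ m) (h3 : l ≠ m) :
    ⁅tau l n, tau n m⁆ = tau l m := by
  rw [commutatorElement_def, tau_inv, tau_inv]
  ext1 S
  show tog l n (tog n m (tog l n (tog n m S))) = tog l m S
  ext x
  rcases eq_or_ne x l with rfl | hx
  · simp only [mem_tog_self _ _ _ h1.symm, mem_tog_ne _ _ _ _ h1, mem_tog_self _ _ _ h2.symm,
      mem_tog_self _ _ _ h3.symm, mem_tog_ne _ _ _ _ h1.symm, mem_tog_ne _ _ _ _ h3.symm,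
      mem_tog_ne _ _ _ _ h2.symm]
    tauto
  · rcases eq_or_ne x n with rfl | hx'
    · simp only [mem_tog_ne _ _ _ _ hx, mem_tog_self _ _ _ h2.symm, mem_tog_ne _ _ _ _ h3.symm,
        mem_tog_ne _ _ _ _ h2.symm]
      tauto
    · simp only [mem_tog_ne _ _ _ _ hx, mem_tog_ne _ _ _ _ hx']

/-- The transvections of width at least `d`. -/
def gens (d : ℚ) : Set (Equiv.Perm Om) := {g | ∃ l m : Lam, l < m ∧ d ≤ m.1 - l.1 ∧ g = tau l m}

/-- The subgroup generated by the transvections of width at least `d`. -/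
def K (d : ℚ) : Subgroup (Equiv.Perm Om) := Subgroup.closure (gens d)

/-- The McLain group. -/
abbrev B : Subgroup (Equiv.Perm Om) := K 0

theorem tau_mem_K {l m : Lam} (h : l < m) {d : ℚ} (hd : d ≤ m.1 - l.1) : tau l m ∈ K d :=
  Subgroup.subset_closure ⟨l, m, h, hd, rfl⟩

theorem tau_mem_B {l m : Lam} (h : l < m) : tau l m ∈ B :=
  tau_mem_K h (sub_nonneg.mpr (le_of_lt h))

theorem K_anti {d e : ℚ} (h : d ≤ e) : K e ≤ K d := by
  refine Subgroup.closure_mono ?_
  rintro g ⟨l, m, h1, h2, rfl⟩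
  exact ⟨l, m, h1, h.trans h2, rfl⟩

theorem comm_tau {l m l' m' : Lam} (h : l < m) (h' : l' < m') :
    ⁅tau l m, tau l' m'⁆ = 1 ∨ (m = l' ∧ ⁅tau l m, tau l' m'⁆ = tau l m') ∨
      (m' = l ∧ ⁅tau l m, tau l' m'⁆ = tau l' m) := by
  by_cases h1 : m = l'
  · subst h1
    right; left
    exact ⟨rfl, tau_rel _ _ _ h.ne h'.ne (h.trans h').ne⟩
  · by_cases h2 : m' = l
    · subst h2
      right; right
      refine ⟨rfl, ?_⟩
      rw [← commutatorElement_inv, tau_rel _ _ _ h'.ne h.ne (h'.trans h).ne, tau_inv]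
    · left
      rw [commutatorElement_eq_one_iff_mul_comm]
      exact tau_comm _ _ _ _ (fun e => h2 e.symm) (fun e => h1 e.symm)

theorem conj_K (d : ℚ) : ∀ x ∈ B, ∀ y ∈ K d, x * y * x⁻¹ ∈ K d := by
  have key : ∀ s ∈ gens 0, ∀ t ∈ gens d, s * t * s⁻¹ ∈ K d := by
    rintro _ ⟨l, m, h, -, rfl⟩ _ ⟨l', m', h', hd, rfl⟩
    have e : tau l m * tau l' m' * (tau l m)⁻¹ = ⁅tau l m, tau l' m'⁆ * tau l' m' := by
      rw [commutatorElement_def]; group
    rw [e]
    refine mul_mem ?_ (tau_mem_K h' hd)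
    rcases comm_tau h h' with e | ⟨rfl, e⟩ | ⟨rfl, e⟩
    · rw [e]; exact one_mem _
    · rw [e]
      refine tau_mem_K (h.trans h') ?_
      have := Subtype.coe_lt_coe.mpr h
      linarith
    · rw [e]
      refine tau_mem_K (h'.trans h) ?_
      have := Subtype.coe_lt_coe.mpr h
      linarith
  refine conj_closure _ _ key ?_
  intro s hs t ht
  have hinv : s⁻¹ ∈ gens 0 := by
    obtain ⟨l, m, h, h0, rfl⟩ := hs
    exact ⟨l, m, h, h0, tau_inv l m⟩
  have := key s⁻¹ hinv t ht
  rwa [inv_inv] at this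

theorem K_le_B {d : ℚ} (hd : 0 ≤ d) : K d ≤ B := K_anti hd

theorem comm_K {d e : ℚ} (hd : 0 ≤ d) (he : 0 ≤ e) :
    ∀ x ∈ K d, ∀ y ∈ K e, ⁅x, y⁆ ∈ K (d + e) := by
  refine comm_closure _ _ _ (fun x hx => conj_K _ x (K_le_B hd hx))
    (fun x hx => conj_K _ x (K_le_B he hx)) ?_
  rintro _ ⟨l, m, h, h0, rfl⟩ _ ⟨l', m', h', h0', rfl⟩
  rcases comm_tau h h' with e | ⟨rfl, e⟩ | ⟨rfl, e⟩
  · rw [e]; exact one_mem _
  · rw [e]
    exact tau_mem_K (h.trans h') (by linarith)
  · rw [e]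
    exact tau_mem_K (h'.trans h) (by linarith)

theorem sq_K {d : ℚ} (hd : 0 ≤ d) : ∀ x ∈ K d, x ^ 2 ∈ K (d + d) := by
  intro x hx
  refine Subgroup.closure_induction (p := fun x _ => x ^ 2 ∈ K (d + d)) ?_ ?_ ?_ ?_ hx
  · rintro _ ⟨l, m, h, h0, rfl⟩
    rw [sq, tau_mul_self]
    exact one_mem _
  · simp
  · intro a b ha hb iha ihb
    have e : (a * b) ^ 2 = a ^ 2 * ⁅a⁻¹, b⁆ * b ^ 2 := by
      rw [commutatorElement_def, sq, sq, sq]; group
    rw [e]
    exact mul_mem (mul_mem iha (comm_K hd hd _ (inv_mem ha) _ hb)) ihb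
  · intro a _ iha
    rw [inv_pow]
    exact inv_mem iha

theorem K_eq_bot {d : ℚ} (hd : 1 ≤ d) : K d = ⊥ := by
  rw [K, Subgroup.closure_eq_bot_iff]
  rintro g ⟨l, m, h, h0, rfl⟩
  have h1 := l.2.1
  have h2 := m.2.2
  linarith

theorem exists_K {b : Equiv.Perm Om} (hb : b ∈ B) : ∃ d : ℚ, 0 < d ∧ b ∈ K d := by
  refine Subgroup.closure_induction (p := fun b _ => ∃ d : ℚ, 0 < d ∧ b ∈ K d) ?_ ?_ ?_ ?_ hb
  · rintro _ ⟨l, m, h, h0, rfl⟩
    exact ⟨m.1 - l.1, sub_pos.mpr h, tau_mem_K h le_rfl⟩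
  · exact ⟨1, one_pos, one_mem _⟩
  · rintro a b _ _ ⟨d, hd, ha⟩ ⟨e, he, hb⟩
    exact ⟨min d e, lt_min hd he, mul_mem (K_anti (min_le_left _ _) ha)
      (K_anti (min_le_right _ _) hb)⟩
  · rintro a _ ⟨d, hd, ha⟩
    exact ⟨d, hd, inv_mem ha⟩

theorem pow_K {d : ℚ} (hd : 0 ≤ d) {b : Equiv.Perm Om} (hb : b ∈ K d) (s : ℕ) :
    b ^ (2 ^ s) ∈ K (2 ^ s * d) := by
  induction s with
  | zero => simpa using hb
  | succ s ih =>
    have := sq_K (by positivity) _ ih
    rw [← pow_mul, ← pow_succ] at this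
    have e : (2 : ℚ) ^ (s + 1) * d = 2 ^ s * d + 2 ^ s * d := by ring
    rw [e]
    exact this

theorem exists_pow {b : Equiv.Perm Om} (hb : b ∈ B) : ∃ s : ℕ, b ^ (2 ^ s) = 1 := by
  obtain ⟨d, hd, hb⟩ := exists_K hb
  obtain ⟨s, hs⟩ := pow_unbounded_of_one_lt (1 / d) (one_lt_two : (1 : ℚ) < 2)
  refine ⟨s, ?_⟩
  have h1 := pow_K hd.le hb s
  rw [K_eq_bot, Subgroup.mem_bot] at h1
  · exact h1
  · rw [div_lt_iff₀ hd] at hs
    exact hs.le

theorem exists_comm {b : Equiv.Perm Om} (hb : b ∈ B) :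
    ∃ F : Finset Lam, ∀ n n' : Lam, n ∉ F → n' ∉ F → b * tau n n' = tau n n' * b := by
  refine Subgroup.closure_induction (p := fun b _ => ∃ F : Finset Lam, ∀ n n' : Lam, n ∉ F →
    n' ∉ F → b * tau n n' = tau n n' * b) ?_ ?_ ?_ ?_ hb
  · rintro _ ⟨l, m, h, h0, rfl⟩
    refine ⟨{l, m}, ?_⟩
    intro n n' hn hn'
    simp only [Finset.mem_insert, Finset.mem_singleton, not_or] at hn hn'
    exact tau_comm _ _ _ _ (Ne.symm hn'.1) hn.2
  · exact ⟨∅, fun n n' _ _ => by simp⟩
  · rintro a b _ _ ⟨F, hF⟩ ⟨F', hF'⟩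
    refine ⟨F ∪ F', fun n n' hn hn' => ?_⟩
    simp only [Finset.mem_union, not_or] at hn hn'
    rw [mul_assoc, hF' n n' hn.2 hn'.2, ← mul_assoc, hF n n' hn.1 hn'.1, mul_assoc]
  · rintro a _ ⟨F, hF⟩
    refine ⟨F, fun n n' hn hn' => ?_⟩
    have := hF n n' hn hn'
    rw [inv_mul_eq_iff_eq_mul, ← mul_assoc, this, mul_assoc, mul_inv_cancel, mul_one]

/-! ### The permutation module -/

/-- The permutation module of `Ω` over the field with two elements. -/
abbrev PM := Om →₀ ZMod 2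

instance : DistribMulAction (Equiv.Perm Om) PM where
  smul g p := Finsupp.mapDomain g p
  one_smul _ := Finsupp.mapDomain_id
  mul_smul g h p := (Finsupp.mapDomain_comp (v := p) (f := h) (g := g))
  smul_zero _ := Finsupp.mapDomain_zero
  smul_add _ _ _ := Finsupp.mapDomain_add

theorem smul_def (g : Equiv.Perm Om) (p : PM) : g • p = Finsupp.mapDomain g p := rfl

theorem smul_coe (g : Equiv.Perm Om) (p : PM) (S : Om) : (g • p) S = p (g⁻¹ S) := by
  rw [smul_def]
  have e : g (g⁻¹ S) = S := by rw [← Equiv.Perm.mul_apply, mul_inv_cancel]; rfl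
  conv_lhs => rw [← e]
  exact Finsupp.mapDomain_apply g.injective _ _

theorem add_self (p : PM) : p + p = 0 := by
  ext S
  exact CharTwo.add_self_eq_zero _

theorem neg_eq (p : PM) : -p = p := by
  rw [neg_eq_iff_add_eq_zero, add_self]

theorem smul_fix (l m : Lam) (p : PM) (h : ∀ S ∈ p.support, m ∉ S) : tau l m • p = p := by
  rw [smul_def]
  conv_rhs => rw [← Finsupp.mapDomain_id (v := p)]
  refine Finsupp.mapDomain_congr ?_
  intro S hS
  exact tog_notMem l m S (h S hS)

/-- The augmentation `[P, B]`. -/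
def M0 : AddSubgroup PM := AddSubgroup.closure {x | ∃ b ∈ B, ∃ p : PM, x = b • p - p}

theorem mem_M0 {b : Equiv.Perm Om} (hb : b ∈ B) (p : PM) : b • p - p ∈ M0 :=
  AddSubgroup.subset_closure ⟨b, hb, p, rfl⟩

theorem smul_M0 {c : Equiv.Perm Om} (hc : c ∈ B) {x : PM} (hx : x ∈ M0) : c • x ∈ M0 := by
  have h := add_mem (mem_M0 hc x) hx
  rwa [sub_add_cancel] at h

/-- The group `[P, B] ⋊ B`. -/
def W : Subgroup (Semi (Equiv.Perm Om) PM) where
  carrier := {γ | γ.q ∈ B ∧ γ.v ∈ M0}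
  mul_mem' := by
    rintro a b ⟨h1, h2⟩ ⟨h3, h4⟩
    exact ⟨mul_mem h1 h3, add_mem h2 (smul_M0 h1 h4)⟩
  one_mem' := ⟨one_mem _, zero_mem _⟩
  inv_mem' := by
    rintro a ⟨h1, h2⟩
    exact ⟨inv_mem h1, neg_mem (smul_M0 (inv_mem h1) h2)⟩

theorem mem_W {γ : Semi (Equiv.Perm Om) PM} : γ ∈ W ↔ γ.q ∈ B ∧ γ.v ∈ M0 := Iff.rfl

/-- The projection of `W` to the McLain group. -/
def pr : W →* Equiv.Perm Om := Semi.proj.comp W.subtype

theorem pr_apply (x : W) : pr x = x.1.q := rfl

/-- Elements of the complement. -/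
def iB (b : Equiv.Perm Om) (hb : b ∈ B) : W := ⟨Semi.inr b, hb, zero_mem _⟩

/-- Elements of the normal subgroup. -/
def iM (v : PM) (hv : v ∈ M0) : W := ⟨Semi.inl v, one_mem _, hv⟩

theorem iM_comm (v : PM) (hv : v ∈ M0) (g : W) :
    ⁅iM v hv, g⁆ = iM (v - g.1.q • v) (sub_mem hv (smul_M0 g.2.1 hv)) := by
  apply Subtype.ext
  rw [commutatorElement_def]
  show (Semi.inl v : Semi (Equiv.Perm Om) PM) * g.1 * (Semi.inl v)⁻¹ * g.1⁻¹ =
    Semi.inl (v - g.1.q • v)
  ext1
  · simp [smul_neg, smul_smul]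
    abel
  · simp

theorem iB_comm (b c : Equiv.Perm Om) (hb : b ∈ B) (hc : c ∈ B) (d : Equiv.Perm Om) (hd : d ∈ B)
    (h : ⁅b, c⁆ = d) : ⁅iB b hb, iB c hc⁆ = iB d hd := by
  subst h
  apply Subtype.ext
  show ⁅(Semi.inr b : Semi (Equiv.Perm Om) PM), Semi.inr c⁆ = Semi.inr ⁅b, c⁆
  rw [map_commutatorElement]

/-! ### `W` is pseudocentral -/

theorem mem_normalClosure_centralizer (g x : W) (h : x * g = g * x) :
    x ∈ Subgroup.normalClosure ((Subgroup.centralizer {g} : Subgroup W) : Set W) := by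
  refine Subgroup.subset_normalClosure ?_
  rw [SetLike.mem_coe, Subgroup.mem_centralizer_singleton_iff]
  exact h

theorem comm_mem_left {N : Subgroup W} (hN : N.Normal) {x : W} (hx : x ∈ N) (y : W) :
    ⁅x, y⁆ ∈ N := by
  rw [commutatorElement_def, mul_assoc, mul_assoc]
  refine mul_mem hx ?_
  rw [← mul_assoc]
  exact hN.conj_mem _ (inv_mem hx) y

theorem comm_mem_right {N : Subgroup W} (hN : N.Normal) {x : W} (hx : x ∈ N) (y : W) :
    ⁅y, x⁆ ∈ N := by
  rw [← commutatorElement_inv]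
  exact inv_mem (comm_mem_left hN hx y)

theorem exists_between (F : Finset Lam) {l m : Lam} (h : l < m) : ∃ n, l < n ∧ n < m ∧ n ∉ F := by
  have h1 : (Set.Ioo l m).Infinite := Set.Ioo_infinite h
  obtain ⟨n, hn, hF⟩ := h1.exists_notMem_finset F
  exact ⟨n, hn.1, hn.2, hF⟩

theorem pseudocentral (g : W) :
    Subgroup.normalClosure ((Subgroup.centralizer {g} : Subgroup W) : Set W) = ⊤ := by
  set N := Subgroup.normalClosure ((Subgroup.centralizer {g} : Subgroup W) : Set W) with hNdef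
  have hN : N.Normal := Subgroup.normalClosure_normal
  -- far transvections centralise `g`
  obtain ⟨F, hF⟩ := exists_comm g.2.1
  set F' : Finset Lam := F ∪ g.1.v.support.biUnion id with hF'
  have h1 : ∀ n n' : Lam, ∀ h : n < n', n ∉ F' → n' ∉ F' → iB (tau n n') (tau_mem_B h) ∈ N := by
    intro n n' h hn hn'
    refine mem_normalClosure_centralizer _ _ ?_
    rw [hF', Finset.mem_union, not_or] at hn hn'
    apply Subtype.ext
    show (Semi.inr (tau n n') : Semi (Equiv.Perm Om) PM) * g.1 = g.1 * Semi.inr (tau n n')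
    ext1
    · simp only [Semi.mul_v, Semi.inr_v, Semi.inr_q, zero_add, smul_zero, add_zero]
      refine smul_fix _ _ _ ?_
      intro S hS hmem
      exact hn'.2 (Finset.mem_biUnion.mpr ⟨S, hS, hmem⟩)
    · simp only [Semi.mul_q, Semi.inr_q]
      exact (hF n n' hn.1 hn'.1).symm
  -- all transvections are in the normal closure
  have h2 : ∀ l m : Lam, ∀ h : l < m, iB (tau l m) (tau_mem_B h) ∈ N := by
    intro l m h
    obtain ⟨n, hn1, hn2, hnF⟩ := exists_between F' h
    obtain ⟨n', hn1', hn2', hnF'⟩ := exists_between F' hn2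
    have e1 := h1 n n' hn1' hnF hnF'
    have e2 := comm_mem_left hN e1 (iB (tau n' m) (tau_mem_B hn2'))
    rw [iB_comm _ _ _ _ _ (tau_mem_B hn2) (tau_rel _ _ _ hn1'.ne hn2'.ne hn2.ne)] at e2
    have e3 := comm_mem_right hN e2 (iB (tau l n) (tau_mem_B hn1))
    rwa [iB_comm _ _ _ _ _ (tau_mem_B h) (tau_rel _ _ _ hn1.ne hn2.ne h.ne)] at e3
  have h3 : ∀ b, ∀ hb : b ∈ B, iB b hb ∈ N := by
    intro b hb
    refine Subgroup.closure_induction (p := fun b hb => iB b hb ∈ N) ?_ ?_ ?_ ?_ hb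
    · rintro _ ⟨l, m, h, h0, rfl⟩
      exact h2 l m h
    · exact one_mem N
    · intro a b ha hb iha ihb
      have e : iB (a * b) (mul_mem ha hb) = iB a ha * iB b hb := by
        apply Subtype.ext
        exact map_mul (Semi.inr : _ →* Semi (Equiv.Perm Om) PM) a b
      rw [e]
      exact mul_mem iha ihb
    · intro a ha iha
      have e : iB a⁻¹ (inv_mem ha) = (iB a ha)⁻¹ := by
        apply Subtype.ext
        exact map_inv (Semi.inr : _ →* Semi (Equiv.Perm Om) PM) a
      rw [e]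
      exact inv_mem iha
  -- the module part
  let M1 : AddSubgroup PM :=
    { carrier := {v | ∃ hv : v ∈ M0, iM v hv ∈ N}
      add_mem' := by
        rintro a b ⟨ha, ha'⟩ ⟨hb, hb'⟩
        refine ⟨add_mem ha hb, ?_⟩
        have e : iM (a + b) (add_mem ha hb) = iM a ha * iM b hb := by
          apply Subtype.ext
          exact Semi.inl_add a b
        rw [e]
        exact mul_mem ha' hb'
      zero_mem' := ⟨zero_mem _, one_mem N⟩
      neg_mem' := by
        rintro a ⟨ha, ha'⟩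
        refine ⟨neg_mem ha, ?_⟩
        have e : iM (-a) (neg_mem ha) = (iM a ha)⁻¹ := by
          rw [eq_inv_iff_mul_eq_one]
          apply Subtype.ext
          show (Semi.inl (-a) : Semi (Equiv.Perm Om) PM) * Semi.inl a = 1
          rw [← Semi.inl_add, neg_add_cancel]
          rfl
        rw [e]
        exact inv_mem ha' }
  have hM1 : ∀ b ∈ B, ∀ x ∈ M0, b • x - x ∈ M1 := by
    intro b hb x hx
    have e1 := comm_mem_right hN (h3 b hb) (iM x hx)
    rw [iM_comm] at e1
    have e2 : x - b • x ∈ M1 := ⟨_, e1⟩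
    have := neg_mem e2
    rwa [neg_sub] at this
  have hD : ∀ b ∈ B, ∀ c ∈ B, ∀ p : PM,
      ((b * c) • p - p) - ((b • p - p) + (c • p - p)) ∈ M1 := by
    intro b hb c hc p
    have := hM1 b hb _ (mem_M0 hc p)
    have e : ((b * c) • p - p) - ((b • p - p) + (c • p - p)) =
        b • (c • p - p) - (c • p - p) := by
      rw [smul_sub, mul_smul]; abel
    rw [e]
    exact this
  have hD2 : ∀ p : PM, ∀ b ∈ B, b • p - p ∈ M1 := by
    intro p b hb
    refine Subgroup.closure_induction (p := fun b _ => b • p - p ∈ M1) ?_ ?_ ?_ ?_ hb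
    · rintro _ ⟨l, m, h, h0, rfl⟩
      obtain ⟨n, hn1, hn2, -⟩ := exists_between ∅ h
      have hs := tau_mem_B hn1
      have ht := tau_mem_B hn2
      have e1 := hD _ hs _ ht p
      have e2 := hD _ (mul_mem hs ht) _ (mul_mem hs ht) p
      have e3 : tau l m = tau l n * tau n m * (tau l n * tau n m) := by
        rw [← tau_rel l n m hn1.ne hn2.ne h.ne, commutatorElement_def, tau_inv, tau_inv]
        group
      rw [← e3, add_self, sub_zero] at e2
      exact e2
    · simp
    · intro a b ha hb iha ihb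
      have := add_mem (hD a ha b hb p) (add_mem iha ihb)
      rwa [sub_add_cancel] at this
    · intro a ha iha
      have := hD a ha a⁻¹ (inv_mem ha) p
      rw [mul_inv_cancel, one_smul, sub_self, zero_sub, neg_add] at this
      have h4 := add_mem this iha
      have h5 := neg_mem h4
      have e : -(-(a • p - p) + -(a⁻¹ • p - p) + (a • p - p)) = a⁻¹ • p - p := by abel
      rwa [e] at h5
  have h4 : M0 ≤ M1 := by
    rw [M0, AddSubgroup.closure_le]
    rintro _ ⟨b, hb, p, rfl⟩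
    exact hD2 p b hb
  rw [eq_top_iff]
  intro x _
  obtain ⟨hv, hv'⟩ := h4 x.2.2
  have e : x = iM x.1.v hv * iB x.1.q x.2.1 := by
    apply Subtype.ext
    show x.1 = (Semi.inl x.1.v : Semi (Equiv.Perm Om) PM) * Semi.inr x.1.q
    ext1 <;> simp
  rw [e]
  exact mul_mem hv' (h3 _ _)

/-! ### `W` is a Baer group -/

/-- The operator `b - 1`. -/
def D (b : Equiv.Perm Om) : PM →+ PM where
  toFun p := b • p - p
  map_zero' := by simp
  map_add' p q := by rw [smul_add]; abel

theorem D_apply (b : Equiv.Perm Om) (p : PM) : D b p = b • p - p := rfl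

theorem D_D (b : Equiv.Perm Om) (p : PM) : D b (D b p) = D (b ^ 2) p := by
  simp only [D_apply]
  have h1 := add_self (b • p)
  rw [smul_sub, sq, mul_smul]
  have e : b • b • p - b • p - (b • p - p) = b • b • p - (b • p + b • p) + p := by abel
  rw [e, h1, sub_zero]
  have h2 := neg_eq p
  rw [sub_eq_add_neg, h2]

theorem D_iter (b : Equiv.Perm Om) (s : ℕ) (p : PM) : (D b)^[2 ^ s] p = D (b ^ (2 ^ s)) p := by
  induction s generalizing p with
  | zero => simp
  | succ s ih =>
    rw [pow_succ, mul_two, Function.iterate_add_apply, ih, ih, D_D, ← pow_mul, ← mul_two]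

/-- The images of the powers of `b - 1`. -/
def V (b : Equiv.Perm Om) : ℕ → AddSubgroup PM
  | 0 => M0
  | n + 1 => (V b n).map (D b)

theorem V_smul {b : Equiv.Perm Om} (hb : b ∈ B) (n : ℕ) :
    ∀ c ∈ Subgroup.zpowers b, ∀ x ∈ V b n, c • x ∈ V b n := by
  induction n with
  | zero =>
    intro c hc x hx
    have hcB : c ∈ B := (Subgroup.zpowers_le.mpr hb) hc
    exact smul_M0 hcB hx
  | succ n ih =>
    rintro c hc _ ⟨x, hx, rfl⟩
    refine ⟨c • x, ih c hc x hx, ?_⟩
    rw [D_apply, D_apply, smul_sub, ← mul_smul, ← mul_smul]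
    have e : b * c = c * b := by
      obtain ⟨k, rfl⟩ := Subgroup.mem_zpowers_iff.mp hc
      exact (Commute.self_zpow b k).eq
    rw [e]

theorem V_D {b : Equiv.Perm Om} (hb : b ∈ B) (n : ℕ) :
    ∀ c ∈ Subgroup.zpowers b, ∀ x ∈ V b n, x - c • x ∈ V b (n + 1) := by
  intro c hc
  have h1 : b ∈ Subgroup.zpowers b := Subgroup.mem_zpowers b
  rw [Subgroup.zpowers_eq_closure] at hc
  refine Subgroup.closure_induction (p := fun c _ => ∀ x ∈ V b n, x - c • x ∈ V b (n + 1))
    ?_ ?_ ?_ ?_ hc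
  · intro c hc x hx
    rw [Set.mem_singleton_iff] at hc
    subst hc
    have : c • x - x ∈ V c (n + 1) := ⟨x, hx, rfl⟩
    have := neg_mem this
    rwa [neg_sub] at this
  · intro x _
    simp
  · intro c d hc hd ihc ihd x hx
    rw [← Subgroup.zpowers_eq_closure] at hc hd
    have e : x - (c * d) • x = (x - c • x) + c • (x - d • x) := by
      rw [smul_sub, mul_smul]; abel
    rw [e]
    exact add_mem (ihc x hx) (V_smul hb (n + 1) c hc _ (ihd x hx))
  · intro c hc ihc x hx
    rw [← Subgroup.zpowers_eq_closure] at hc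
    have e : x - c⁻¹ • x = -(c⁻¹ • (x - c • x)) := by
      rw [smul_sub, inv_smul_smul]; abel
    rw [e]
    exact neg_mem (V_smul hb (n + 1) _ (inv_mem hc) _ (ihc x hx))

theorem V_anti {b : Equiv.Perm Om} (hb : b ∈ B) (n : ℕ) : V b (n + 1) ≤ V b n := by
  rintro _ ⟨x, hx, rfl⟩
  rw [D_apply]
  exact sub_mem (V_smul hb n b (Subgroup.mem_zpowers b) x hx) hx

theorem V_mem (b : Equiv.Perm Om) (n : ℕ) : ∀ x ∈ V b n, ∃ y, x = (D b)^[n] y := by
  induction n with
  | zero => intro x _; exact ⟨x, rfl⟩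
  | succ n ih =>
    rintro _ ⟨x, hx, rfl⟩
    obtain ⟨y, rfl⟩ := ih x hx
    exact ⟨y, (Function.iterate_succ_apply' _ _ _).symm⟩

theorem baer (g : W) : (Subgroup.zpowers g).IsSubnormal := by
  obtain ⟨d, hd, hgd⟩ := exists_K g.2.1
  -- first chain
  let C : ℕ → Subgroup W := fun n => (K (n * d)).comap pr
  have hz : ∀ h ∈ Subgroup.zpowers g, pr h ∈ Subgroup.zpowers g.1.q := by
    intro h hh
    obtain ⟨k, rfl⟩ := Subgroup.mem_zpowers_iff.mp hh
    rw [map_zpow]
    exact Subgroup.zpow_mem_zpowers _ _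
  have h1 : ∀ n, (Subgroup.zpowers g ⊔ C n).IsSubnormal := by
    refine chain _ C ?_ ?_ ?_ ?_
    · have : C 0 = ⊤ := by
        rw [eq_top_iff]
        intro x _
        show pr x ∈ K (((0 : ℕ) : ℚ) * d)
        rw [Nat.cast_zero, zero_mul]
        exact x.2.1
      rw [this, sup_top_eq]
      exact Subgroup.IsSubnormal.top
    · intro n
      refine Subgroup.comap_mono (K_anti ?_)
      push_cast
      nlinarith
    · intro n x hx y hy
      show pr (x * y * x⁻¹) ∈ K (((n + 1 : ℕ) : ℚ) * d)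
      rw [map_mul, map_mul, map_inv]
      exact conj_K _ _ x.2.1 _ hy
    · intro n x hx h hh
      show pr ⁅x, h⁆ ∈ K (((n + 1 : ℕ) : ℚ) * d)
      rw [map_commutatorElement]
      have e : (((n + 1 : ℕ) : ℚ) * d) = n * d + d := by push_cast; ring
      rw [e]
      have hh' : pr h ∈ K d := (Subgroup.zpowers_le.mpr hgd) (hz h hh)
      exact comm_K (by positivity) hd.le _ hx _ hh'
  obtain ⟨n, hn⟩ := exists_nat_gt (1 / d)
  have hn' : K (n * d) = ⊥ := by
    apply K_eq_bot
    rw [div_lt_iff₀ hd] at hn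
    exact hn.le
  -- second chain
  let C' : ℕ → Subgroup W := fun j =>
    { carrier := {x | x.1.q = 1 ∧ x.1.v ∈ V g.1.q j}
      mul_mem' := by
        rintro a b ⟨h1, h2⟩ ⟨h3, h4⟩
        refine ⟨?_, ?_⟩
        · show a.1.q * b.1.q = 1
          rw [h1, h3, mul_one]
        · show a.1.v + a.1.q • b.1.v ∈ _
          rw [h1, one_smul]
          exact add_mem h2 h4
      one_mem' := ⟨rfl, zero_mem _⟩
      inv_mem' := by
        rintro a ⟨h1, h2⟩
        refine ⟨?_, ?_⟩
        · show a.1.q⁻¹ = 1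
          rw [h1, inv_one]
        · show -(a.1.q⁻¹ • a.1.v) ∈ _
          rw [h1, inv_one, one_smul]
          exact neg_mem h2 }
  have h2 : ∀ j, (Subgroup.zpowers g ⊔ C' j).IsSubnormal := by
    refine chain _ C' ?_ ?_ ?_ ?_
    · have : C' 0 = C n := by
        ext x
        show (x.1.q = 1 ∧ x.1.v ∈ M0) ↔ x.1.q ∈ K (n * d)
        rw [hn', Subgroup.mem_bot]
        exact ⟨fun h => h.1, fun h => ⟨h, x.2.2⟩⟩
      rw [this]
      exact h1 n
    · rintro j x ⟨hx1, hx2⟩
      exact ⟨hx1, V_anti g.2.1 j hx2⟩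
    · rintro j x ⟨hx1, hx2⟩ y hy
      have e : x * y * x⁻¹ = y := by
        apply Subtype.ext
        show x.1 * y.1 * x.1⁻¹ = y.1
        have hy1 : y.1.q = 1 := hy.1
        ext1
        · simp only [Semi.mul_v, Semi.mul_q, Semi.inv_v, hx1, hy1, inv_one, one_smul, mul_one]
          abel
        · simp only [Semi.mul_q, Semi.inv_q, hx1, hy1]
          simp
      rw [e]
      exact hy
    · rintro j x ⟨hx1, hx2⟩ h hh
      have e : x = iM x.1.v x.2.2 := by
        apply Subtype.ext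
        ext1
        · rfl
        · exact hx1
      rw [e, iM_comm]
      exact ⟨rfl, V_D g.2.1 j _ (hz h hh) _ hx2⟩
  obtain ⟨s, hs⟩ := exists_pow g.2.1
  have h3 := h2 (2 ^ s)
  have h4 : C' (2 ^ s) = ⊥ := by
    rw [eq_bot_iff]
    rintro x ⟨hx1, hx2⟩
    rw [Subgroup.mem_bot]
    obtain ⟨y, hy⟩ := V_mem _ _ _ hx2
    rw [D_iter, hs, D_apply, one_smul, sub_self] at hy
    apply Subtype.ext
    ext1
    · exact hy
    · exact hx1
  rwa [h4, sup_bot_eq] at h3

/-! ### `W` is not a Fitting group -/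

/-- A decreasing sequence. -/
def lo (i : ℕ) : Lam := ⟨1 / ((i : ℚ) + 3), by positivity, by
  rw [div_lt_one (by positivity)]
  have : (0 : ℚ) ≤ i := Nat.cast_nonneg i
  linarith⟩

/-- An increasing sequence. -/
def hi (i : ℕ) : Lam := ⟨1 - 1 / ((i : ℚ) + 3), by
  have := (lo i).2.2
  show (0 : ℚ) < 1 - (lo i).1
  linarith, by
  have := (lo i).2.1
  show 1 - (lo i).1 < 1
  linarith⟩

theorem lo_lt {i j : ℕ} (h : i < j) : lo j < lo i := by
  rw [← Subtype.coe_lt_coe]
  show 1 / ((j : ℚ) + 3) < 1 / ((i : ℚ) + 3)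
  have h' : (i : ℚ) < j := Nat.cast_lt.mpr h
  apply one_div_lt_one_div_of_lt
  · positivity
  · linarith

theorem hi_lt {i j : ℕ} (h : i < j) : hi i < hi j := by
  have := lo_lt h
  rw [← Subtype.coe_lt_coe] at this ⊢
  show 1 - (lo i).1 < 1 - (lo j).1
  linarith

theorem lo_hi (i j : ℕ) : lo i < hi j := by
  rw [← Subtype.coe_lt_coe]
  have h : ∀ k, (lo k).1 ≤ 1 / 3 := by
    intro k
    show 1 / ((k : ℚ) + 3) ≤ 1 / 3
    apply one_div_le_one_div_of_le
    · norm_num
    · have : (0 : ℚ) ≤ k := Nat.cast_nonneg k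
      linarith
  show (lo i).1 < 1 - (lo j).1
  have h1 := h i
  have h2 := h j
  linarith

theorem lo_inj {i j : ℕ} (h : lo i = lo j) : i = j := by
  rcases lt_trichotomy i j with h1 | h1 | h1
  · exact absurd h (lo_lt h1).ne'
  · exact h1
  · exact absurd h (lo_lt h1).ne

/-- The sequence of vectors. -/
def f (w : Om) : ℕ → PM
  | 0 => Finsupp.single w 1
  | n + 1 => f w n - tau (lo n) (hi n) • f w n

theorem f_mem (w : Om) (n : ℕ) : f w (n + 1) ∈ M0 := by
  have h : ∀ p : PM, p - tau (lo n) (hi n) • p ∈ M0 := by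
    intro p
    have := neg_mem (mem_M0 (tau_mem_B (lo_hi n n)) p)
    rwa [neg_sub] at this
  exact h _

theorem f_support (w : Om) (hw : ∀ i, lo i ∉ w) (n : ℕ) :
    ∀ S, f w n S ≠ 0 → ∀ i, n ≤ i → lo i ∉ S := by
  induction n with
  | zero =>
    intro S hS i _
    have : S = w := by
      by_contra hne
      apply hS
      show (Finsupp.single w (1 : ZMod 2)) S = 0
      rw [Finsupp.single_apply, if_neg (fun h => hne h.symm)]
    rw [this]
    exact hw i
  | succ n ih =>
    intro S hS i hi'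
    have hS' : f w n S ≠ 0 ∨ f w n (tog (lo n) (hi n) S) ≠ 0 := by
      by_contra hcon
      push Not at hcon
      apply hS
      show (f w n - tau (lo n) (hi n) • f w n) S = 0
      rw [Finsupp.sub_apply, smul_coe, tau_inv, tau_apply, hcon.1, hcon.2, sub_zero]
    rcases hS' with h | h
    · exact ih S h i (by omega)
    · have := ih _ h i (by omega)
      rwa [mem_tog_ne _ _ _ _ (fun e => by have := lo_inj e; omega)] at this

/-- The special vector. -/
def T (w : Om) (n : ℕ) : Om := w ∪ (Finset.range n).image lo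

theorem f_T (w : Om) (hw : ∀ i, lo i ∉ w) (n : ℕ) (hn : ∀ i < n, hi i ∈ w) :
    f w n (T w n) = 1 := by
  induction n with
  | zero =>
    show (Finsupp.single w (1 : ZMod 2)) (T w 0) = 1
    have : T w 0 = w := by simp [T]
    rw [this, Finsupp.single_eq_same]
  | succ n ih =>
    have ih' := ih (fun i hi' => hn i (by omega))
    show (f w n - tau (lo n) (hi n) • f w n) (T w (n + 1)) = 1
    rw [Finsupp.sub_apply, smul_coe, tau_inv, tau_apply]
    have h1 : f w n (T w (n + 1)) = 0 := by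
      by_contra h
      refine f_support w hw n _ h n le_rfl ?_
      rw [T, Finset.mem_union]
      right
      exact Finset.mem_image_of_mem _ (Finset.mem_range.mpr (by omega))
    have hne : hi n ≠ lo n := (lo_hi n n).ne'
    have h2 : tog (lo n) (hi n) (T w (n + 1)) = T w n := by
      ext x
      rcases eq_or_ne x (lo n) with rfl | hx
      · rw [mem_tog_self _ _ _ hne]
        have e1 : lo n ∈ T w (n + 1) := by
          rw [T, Finset.mem_union]
          right
          exact Finset.mem_image_of_mem _ (Finset.mem_range.mpr (by omega))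
        have e2 : hi n ∈ T w (n + 1) := by
          rw [T, Finset.mem_union]
          left
          exact hn n (by omega)
        have e3 : lo n ∉ T w n := by
          rw [T, Finset.mem_union, Finset.mem_image]
          rintro (h | ⟨i, hi', h⟩)
          · exact hw n h
          · have := lo_inj h
            rw [Finset.mem_range] at hi'
            omega
        tauto
      · rw [mem_tog_ne _ _ _ _ hx, T, T, Finset.range_add_one, Finset.image_insert,
          Finset.mem_union, Finset.mem_union, Finset.mem_insert]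
        tauto
    rw [h1, h2, ih']
    decide

theorem not_nilpotent (N : Subgroup W) (hN : N.Normal) (h : iB (tau (lo 0) (hi 0))
    (tau_mem_B (lo_hi 0 0)) ∈ N) : ¬ Group.IsNilpotent N := by
  have h1 : ∀ i, iB (tau (lo i) (hi i)) (tau_mem_B (lo_hi i i)) ∈ N := by
    intro i
    rcases Nat.eq_zero_or_pos i with rfl | hi'
    · exact h
    · have e2 := comm_mem_right hN h (iB (tau (lo i) (lo 0)) (tau_mem_B (lo_lt hi')))
      rw [iB_comm _ _ _ _ _ (tau_mem_B (lo_hi i 0)) (tau_rel _ _ _ (lo_lt hi').ne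
        (lo_hi 0 0).ne (lo_hi i 0).ne)] at e2
      have e3 := comm_mem_left hN e2 (iB (tau (hi 0) (hi i)) (tau_mem_B (hi_lt hi')))
      rwa [iB_comm _ _ _ _ _ (tau_mem_B (lo_hi i i)) (tau_rel _ _ _ (lo_hi i 0).ne
        (hi_lt hi').ne (lo_hi i i).ne)] at e3
  have h2 : ∀ (w : Om) (n : ℕ), iM (f w (n + 2)) (f_mem w (n + 1)) ∈
      N.lowerCentralSeries n := by
    intro w n
    induction n with
    | zero =>
      have := comm_mem_right hN (h1 1) (iM (f w 1) (f_mem w 0))
      rw [iM_comm] at this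
      exact this
    | succ n ih =>
      have := Subgroup.commutator_mem_commutator ih (h1 (n + 2))
      rw [iM_comm] at this
      exact this
  intro hnil
  rw [Subgroup.isNilpotent_iff_lowerCentralSeries] at hnil
  obtain ⟨n, hn⟩ := hnil
  have h3 := h2 ((Finset.range (n + 2)).image hi) n
  rw [hn, Subgroup.mem_bot] at h3
  have h4 : f ((Finset.range (n + 2)).image hi) (n + 2) = 0 :=
    congrArg (fun x : W => x.1.v) h3
  have h5 := f_T ((Finset.range (n + 2)).image hi) ?_ (n + 2) ?_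
  · rw [h4] at h5
    exact zero_ne_one h5
  · intro i hmem
    rw [Finset.mem_image] at hmem
    obtain ⟨j, -, hj⟩ := hmem
    exact (lo_hi i j).ne hj.symm
  · intro i hi'
    exact Finset.mem_image_of_mem _ (Finset.mem_range.mpr hi')

/-- There is a pseudocentral Baer group which is not a Fitting group. -/
theorem result : ∃ (G : Type) (_ : Group G),
    (⨅ g : G, Subgroup.normalClosure ((Subgroup.centralizer {g} : Subgroup G) : Set G)) = ⊤ ∧
    (∀ g : G, (Subgroup.zpowers g).IsSubnormal) ∧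
    ¬ (∀ g : G, ∃ N : Subgroup G, N.Normal ∧ Group.IsNilpotent N ∧ g ∈ N) := by
  refine ⟨W, inferInstance, ?_, baer, ?_⟩
  · rw [iInf_eq_top]
    exact pseudocentral
  · intro hcon
    obtain ⟨N, hN, hnil, hmem⟩ := hcon (iB (tau (lo 0) (hi 0)) (tau_mem_B (lo_hi 0 0)))
    exact not_nilpotent N hN hmem hnil

end

end Pool.Agent.Results.MP_a7b7fa_al.BaerNotFitting
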